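import Pool.Agent.H45.EGH.S1

/-!
# EGH, rows FIN, MON, CHF
-/

set_option autoImplicit false

namespace Pool.EGH

open MvPolynomial

/-- FIN: the forms of degree `i` are finite dimensional. -/
theorem t_FIN : FINStmt := fun K _ N i => by
  have h := homogeneousSubmodule_fg (σ := Fin N) (R := K) i
  exact Module.Finite.iff_fg.2 h

/-- MON: the Hilbert function is antitone. -/
theorem t_MON : MONStmt := by
  intro K _ N I J i hIJ
  have hF : Module.Finite K ↥(fm K N i) := t_FIN K N i
  have hle : I.restrictScalars K ⊓ fm K N i ≤ J.restrictScalars K ⊓ fm K N i :=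
    inf_le_inf_right _ fun x hx => hIJ hx
  have hfJ : Module.Finite K ↥(J.restrictScalars K ⊓ fm K N i) :=
    Submodule.finiteDimensional_of_le inf_le_right
  have h1 := Submodule.finrank_mono hle
  have h2 : Module.finrank K ↥(J.restrictScalars K ⊓ fm K N i) ≤
      Module.finrank K ↥(fm K N i) := Submodule.finrank_mono inf_le_right
  refine ⟨?_, fun h f hf hfi => ?_⟩
  · unfold hf
    omega
  · have h3 : Module.finrank K ↥(I.restrictScalars K ⊓ fm K N i) =
        Module.finrank K ↥(J.restrictScalars K ⊓ fm K N i) := by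
      unfold EGH.hf at h
      omega
    have h4 := Submodule.eq_of_le_of_finrank_eq hle h3
    have h5 : f ∈ J.restrictScalars K ⊓ fm K N i := ⟨hf, hfi⟩
    rw [← h4] at h5
    exact h5.1

/-- CHF: the Hilbert function of a complete intersection of `r` quadrics. -/
theorem t_CHF (hS : HSRStmt) : CHFStmt := by
  intro K _ N k r Q hk hQ i
  have h1 := hS K N k r Q hQ
  have h2 : (1 - PowerSeries.X ^ 2 : PowerSeries ℤ) =
      (1 - PowerSeries.X) * (1 + PowerSeries.X) := by ring
  have h3 : (1 - PowerSeries.X : PowerSeries ℤ) ^ N ≠ 0 := by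
    refine pow_ne_zero _ fun h => ?_
    have h4 := congrArg (PowerSeries.coeff 0) h
    simp at h4
  have h4 : PowerSeries.mk (fun i => (hf Q i : ℤ)) = (1 + PowerSeries.X) ^ r := by
    refine mul_right_cancel₀ h3 ?_
    rw [h1, h2, mul_pow, ← hk, pow_add]
    ring
  have h5 := congrArg (PowerSeries.coeff i) h4
  rw [PowerSeries.coeff_mk] at h5
  have h6 : PowerSeries.coeff i ((1 + PowerSeries.X : PowerSeries ℤ) ^ r) = (r.choose i : ℤ) := by
    have h7 : ((1 + PowerSeries.X : PowerSeries ℤ) ^ r) =
        (((1 + Polynomial.X : Polynomial ℤ) ^ r : Polynomial ℤ) : PowerSeries ℤ) := by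
      simp
    rw [h7, Polynomial.coeff_coe, Polynomial.coeff_one_add_X_pow]
  rw [h6] at h5
  exact_mod_cast h5

end Pool.EGH
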