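import Pool.Agent.H45.EGH.S2

/-!
# EGH, rows CLB, RE5
-/

set_option autoImplicit false

namespace Pool.EGH

open MvPolynomial

/-- CLB: basic facts about `I : l` and `I + (l)`. -/
theorem t_CLB (hC : COLStmt) (hM : MONStmt) (hQ : QUOStmt) (hG : HGAStmt) : CLBStmt := by
  intro K _ _ N n Q I l m hQC hI hQI hl hm hlQ hlm
  have h1 := hC K N 1 I l hI hl
  have h2 := (hG K N).2.1 I 1 l hI hl
  refine ⟨h1.1, fun i => ?_, h2.2, fun f hf => ?_, h2.1, ?_⟩
  · refine (hM K N (I ⊔ Ideal.span {m}) (clI I l) i ?_).1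
    refine sup_le (fun f hf => ?_) ?_
    · exact I.mul_mem_left l hf
    · rw [Ideal.span_singleton_le_iff_mem]
      exact hlm
  · exact I.mul_mem_left l (hQI hf)
  · obtain ⟨Q', h3, _, h4⟩ := hQ K N n Q l hQC hl hlQ
    exact ⟨Q', h3, h4.trans (sup_le_sup_right hQI _)⟩

/-- The bound from degree 2 to degree 3 for four quadrics. -/
def g4 (h : ℕ) : ℕ := [0, 0, 0, 1, 1, 2].getD h 4

theorem g4_of {h x : ℕ} (hx : x ≤ 4) (h1 : 6 ≤ h + (4 - x).choose 2) : x ≤ g4 h := by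
  rcases Nat.lt_or_ge h 6 with h6 | h6
  · interval_cases h <;> interval_cases x <;> first | decide | (revert h1; decide)
  · have : g4 h = 4 := by
      unfold g4
      rw [List.getD_eq_default]
      simpa using h6
    omega

/-- The finite check. -/
def chk5 (D a b : ℕ) : Bool :=
  !(decide (D ≤ a + 6) && decide (D ≤ b + 6) && decide (a ≤ D) && decide (b ≤ D)) ||
  decide (min (g4 (D - a) + min (a.choose 2) (D - b)) (g4 (D - b) + min (b.choose 2) (D - a)) ≤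
      b2 D)

theorem num5_aux : ∀ (D : Fin 10) (a b : Fin 6), chk5 D a b = true := by decide +kernel

theorem num5 (D : ℕ) (h1 : D < 10) (a : ℕ) (h2 : a < 6) (b : ℕ) (h3 : b < 6) (h4 : D ≤ a + 6)
    (h5 : D ≤ b + 6) (h6 : a ≤ D) (h7 : b ≤ D) :
    min (g4 (D - a) + min (a.choose 2) (D - b)) (g4 (D - b) + min (b.choose 2) (D - a)) ≤
      b2 D := by
  have h := num5_aux ⟨D, h1⟩ ⟨a, h2⟩ ⟨b, h3⟩
  simp only [chk5, h4, h5, h6, h7, decide_true, Bool.and_true, Bool.not_true, Bool.false_or,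
    decide_eq_true_eq] at h
  exact h

/-- RE5: a reducible quadric, five quadrics. -/
theorem t_RE5 (hB : CLBStmt) (hE : HE1Stmt) (hD : HEDStmt) (hI : IMGStmt) : RE5Stmt := by
  intro K _ _ N Q I l m hQC hIG hQI hl hm hlQ hmQ hlm
  have hml : m * l ∈ I := by
    rw [mul_comm]
    exact hlm
  obtain ⟨a1, a2, a3, a4, a5, Qa, a6, a7⟩ := hB K N 4 Q I l m hQC hIG hQI hl hm hlQ hlm
  obtain ⟨b1, b2', b3', b4', b5, Qb, b6, b7⟩ := hB K N 4 Q I m l hQC hIG hQI hm hl hmQ hml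
  have i2 := (hI K N 5 Q I hQC hIG hQI 2).2.1
  have i3 := (hI K N 5 Q I hQC hIG hQI 3).2.1
  have ia := (hI K N 5 Q (clI I l) hQC a3 a4 1).2.1
  have ib := (hI K N 5 Q (clI I m) hQC b3' b4' 1).2.1
  have ja2 := (hI K N 4 Qa (I ⊔ Ideal.span {l}) a6 a5 a7 2).2.1
  have ja3 := (hI K N 4 Qa (I ⊔ Ideal.span {l}) a6 a5 a7 3).2.1
  have jb2 := (hI K N 4 Qb (I ⊔ Ideal.span {m}) b6 b5 b7 2).2.1
  have jb3 := (hI K N 4 Qb (I ⊔ Ideal.span {m}) b6 b5 b7 3).2.1
  have ea := hE K N 5 Q (clI I l) hQC a3 a4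
  have eb := hE K N 5 Q (clI I m) hQC b3' b4'
  have da := hD K N 2 Qa (I ⊔ Ideal.span {l}) a6 a5 a7
  have db := hD K N 2 Qb (I ⊔ Ideal.span {m}) b6 b5 b7
  have a12 := a1 1
  have a13 := a1 2
  have b12 := b1 1
  have b13 := b1 2
  have a22 := a2 2
  have b22 := b2' 2
  norm_num [Nat.choose] at i2 i3 ia ib ja2 ja3 jb2 jb3 a12 a13 b12 b13 da db
  rcases Nat.lt_or_ge (hf I 2) 10 with h10 | h10
  · have ga : hf (I ⊔ Ideal.span {l}) 3 ≤ g4 (hf I 2 - hf (clI I l) 1) :=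
      g4_of (by omega) (by rw [show hf I 2 - hf (clI I l) 1 = hf (I ⊔ Ideal.span {l}) 2 by omega];
                           exact da)
    have gb : hf (I ⊔ Ideal.span {m}) 3 ≤ g4 (hf I 2 - hf (clI I m) 1) :=
      g4_of (by omega) (by rw [show hf I 2 - hf (clI I m) 1 = hf (I ⊔ Ideal.span {m}) 2 by omega];
                           exact db)
    have h := num5 (hf I 2) h10 (hf (clI I l) 1) (by omega) (hf (clI I m) 1) (by omega)
      (by omega) (by omega) (by omega) (by omega)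
    have h1 : hf I 3 ≤ g4 (hf I 2 - hf (clI I l) 1) +
        min ((hf (clI I l) 1).choose 2) (hf I 2 - hf (clI I m) 1) := by omega
    have h2 : hf I 3 ≤ g4 (hf I 2 - hf (clI I m) 1) +
        min ((hf (clI I m) 1).choose 2) (hf I 2 - hf (clI I l) 1) := by omega
    omega
  · have h1 : hf I 2 = 10 := by omega
    have h2 : b2 10 = 10 := rfl
    rw [h1, h2]
    omega

end Pool.EGH
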